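import Pool.Agent.Helper69.TPF.St3

/-! Module CMF of project TPF: a commutator formula. -/

set_option autoImplicit false

open scoped commutatorElement

namespace Pool.Agent.Helper29.TPF

open Pool.Agent.Helper69.TPF

private theorem cmf_l {Γ : Type} [Group Γ] (z B Y : Γ) (hz : z ∈ Subgroup.center Γ) :
    ⁅z * B, Y⁆ = ⁅B, Y⁆ := by
  have h1 : B * Y * B⁻¹ * z = z * (B * Y * B⁻¹) := Subgroup.mem_center_iff.1 hz _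
  have h2 : ⁅z * B, Y⁆ = z * (B * Y * B⁻¹) * z⁻¹ * Y⁻¹ := by
    rw [commutatorElement_def]
    group
  rw [h2, ← h1, mul_inv_cancel_right, commutatorElement_def]

private theorem cmf_r {Γ : Type} [Group Γ] (z B Y : Γ) (hz : z ∈ Subgroup.center Γ) :
    ⁅B, z * Y⁆ = ⁅B, Y⁆ := by
  rw [← commutatorElement_inv, cmf_l z Y B hz, commutatorElement_inv]

private theorem cmf_c {Γ : Type} [Group Γ] (A B Y : Γ) (h1 : ⁅A, B⁆ ∈ Subgroup.center Γ)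
    (h2 : ⁅A, Y⁆ ∈ Subgroup.center Γ) : Commute A ⁅B, Y⁆ := by
  have h3 : A * ⁅B, Y⁆ * A⁻¹ = ⁅A * B * A⁻¹, A * Y * A⁻¹⁆ := by
    simp only [commutatorElement_def]
    group
  have h4 : A * B * A⁻¹ = ⁅A, B⁆ * B := by
    rw [commutatorElement_def]
    group
  have h5 : A * Y * A⁻¹ = ⁅A, Y⁆ * Y := by
    rw [commutatorElement_def]
    group
  rw [h4, h5, cmf_l _ _ _ h1, cmf_r _ _ _ h2] at h3
  exact mul_inv_eq_iff_eq_mul.1 h3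

/-- CMF. -/
theorem cCMF : St_CMF := by
  intro Γ _ A B X Y h1 h2 h3 h4
  have hA : Commute A ⁅B, Y⁆ := cmf_c A B Y h1 h2
  have hX : Commute X ⁅B, Y⁆ := by
    refine cmf_c X B Y ?_ h4
    rw [← commutatorElement_inv]
    exact (Subgroup.center Γ).inv_mem h3
  have hAX : Commute ⁅A, X⁆ ⁅B, Y⁆ := by
    rw [commutatorElement_def A X]
    exact ((hA.mul_left hX).mul_left hA.inv_left).mul_left hX.inv_left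
  have c2 : ∀ g, g * ⁅A, Y⁆ = ⁅A, Y⁆ * g := Subgroup.mem_center_iff.1 h2
  have c3 : ∀ g, g * ⁅B, X⁆ = ⁅B, X⁆ * g := Subgroup.mem_center_iff.1 h3
  calc ⁅A * B, X * Y⁆ = A * ⁅B, X⁆ * (X * ⁅B, Y⁆ * A⁻¹) * ⁅A, Y⁆ * X⁻¹ := by
        simp only [commutatorElement_def]
        group
    _ = ⁅B, X⁆ * A * (X * ⁅B, Y⁆ * A⁻¹) * ⁅A, Y⁆ * X⁻¹ := by rw [c3 A]
    _ = ⁅A, Y⁆ * (⁅B, X⁆ * A * (X * ⁅B, Y⁆ * A⁻¹)) * X⁻¹ := by rw [c2]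
    _ = ⁅A, Y⁆ * ⁅B, X⁆ * (A * X * ⁅B, Y⁆) * (A⁻¹ * X⁻¹) := by group
    _ = ⁅A, Y⁆ * ⁅B, X⁆ * (⁅B, Y⁆ * (A * X)) * (A⁻¹ * X⁻¹) := by
        rw [(hA.mul_left hX).eq]
    _ = ⁅A, Y⁆ * ⁅B, X⁆ * (⁅B, Y⁆ * ⁅A, X⁆) := by
        rw [commutatorElement_def A X]
        group
    _ = ⁅A, Y⁆ * ⁅B, X⁆ * (⁅A, X⁆ * ⁅B, Y⁆) := by rw [hAX.eq]
    _ = ⁅A, X⁆ * ⁅B, Y⁆ * (⁅A, Y⁆ * ⁅B, X⁆) := by
        rw [mul_assoc ⁅A, Y⁆, ← c3, ← c2, mul_assoc (⁅A, X⁆ * ⁅B, Y⁆), c2 ⁅B, X⁆]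

end Pool.Agent.Helper29.TPF
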